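import Mathlib

set_option autoImplicit false

/-!
# MP_ef3f0f_gt: the final statement (Theorem S)

Surface subgroups of uniform lattices in `PSL₂(ℝ) × H` with dense projection to `PSL₂(ℝ)`.
-/

namespace Pool.Agent.MPEF

open scoped commutatorElement

/-- The product of the commutators of the `g` pairs of generators: the relator of the fundamental
group of the closed orientable surface of genus `g`. -/
def surfRel (g : ℕ) : FreeGroup (Fin g × Bool) :=
  (List.ofFn fun i : Fin g => ⁅FreeGroup.of (i, false), FreeGroup.of (i, true)⁆).prod

/-- The fundamental group of the closed orientable surface of genus `g`. -/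
abbrev SurfaceGroup (g : ℕ) : Type := PresentedGroup {surfRel g}

/-- `PSL₂(ℝ)` (Mathlib's projective special linear group, with the quotient topology). -/
abbrev PSL2 : Type := Matrix.ProjectiveSpecialLinearGroup (Fin 2) ℝ

/-- **Theorem S.** Let `H` be a locally compact, Hausdorff, second countable, compactly generated
topological group and let `Γ` be a discrete cocompact subgroup of `PSL₂(ℝ) × H` whose projection
to `PSL₂(ℝ)` is dense. Then `Γ` contains a surface group of genus at least two; moreover the
surface group can be taken such that its projection to `PSL₂(ℝ)` is injective. -/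
def S_Final : Prop :=
  ∀ (H : Type) [Group H] [TopologicalSpace H] [IsTopologicalGroup H] [LocallyCompactSpace H]
    [T2Space H] [SecondCountableTopology H],
    (∃ K : Set H, IsCompact K ∧ Subgroup.closure K = ⊤) →
    ∀ Γ : Subgroup (PSL2 × H), DiscreteTopology Γ → CompactSpace ((PSL2 × H) ⧸ Γ) →
      Dense (Prod.fst '' (Γ : Set (PSL2 × H))) →
      ∃ g : ℕ, 2 ≤ g ∧ ∃ f : SurfaceGroup g →* PSL2 × H,
        (∀ x, f x ∈ Γ) ∧ Function.Injective fun x => (f x).1

end Pool.Agent.MPEF
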