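import Pool.Agent.Lib.MP_ef3f0f_gt.A.Defs
import Pool.Agent.Lib.MP_ef3f0f_gt.A.FD
import Pool.Agent.Lib.MP_ef3f0f_gt.A.Pants
import Pool.Agent.Lib.MP_ef3f0f_gt.A.Spec
import Pool.Agent.Lib.MP_ef3f0f_gt.A.arcOk
import Pool.Agent.Lib.MP_ef3f0f_gt.A.cyc
import Pool.Agent.Lib.MP_ef3f0f_gt.A.diag
import Pool.Agent.Lib.MP_ef3f0f_gt.F.Spec
import Pool.Agent.Lib.MP_ef3f0f_gt.F.post
import Pool.Agent.Lib.MP_ef3f0f_gt.F.pre
import Pool.Agent.Lib.MP_ef3f0f_gt.G.AW
import Pool.Agent.Lib.MP_ef3f0f_gt.G.Amal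
import Pool.Agent.Lib.MP_ef3f0f_gt.G.Defs
import Pool.Agent.Lib.MP_ef3f0f_gt.G.Glue
import Pool.Agent.Lib.MP_ef3f0f_gt.G.HNN
import Pool.Agent.Lib.MP_ef3f0f_gt.G.HW
import Pool.Agent.Lib.MP_ef3f0f_gt.G.Spec
import Pool.Agent.Lib.MP_ef3f0f_gt.G.StAmal
import Pool.Agent.Lib.MP_ef3f0f_gt.G.StHNN
import Pool.Agent.Lib.MP_ef3f0f_gt.G.StPerm
import Pool.Agent.Lib.MP_ef3f0f_gt.G.SurfEnd
import Pool.Agent.Lib.MP_ef3f0f_gt.G.SysConj
import Pool.Agent.Lib.MP_ef3f0f_gt.G.SysMap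
import Pool.Agent.Lib.MP_ef3f0f_gt.G.sf
import Pool.Agent.Lib.MP_ef3f0f_gt.I.Defs
import Pool.Agent.Lib.MP_ef3f0f_gt.I.E1
import Pool.Agent.Lib.MP_ef3f0f_gt.I.End
import Pool.Agent.Lib.MP_ef3f0f_gt.I.F0
import Pool.Agent.Lib.MP_ef3f0f_gt.I.I6
import Pool.Agent.Lib.MP_ef3f0f_gt.I.I7
import Pool.Agent.Lib.MP_ef3f0f_gt.I.I8
import Pool.Agent.Lib.MP_ef3f0f_gt.I.PI
import Pool.Agent.Lib.MP_ef3f0f_gt.I.PI0
import Pool.Agent.Lib.MP_ef3f0f_gt.I.Spec
import Pool.Agent.Lib.MP_ef3f0f_gt.I.T2II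
import Pool.Agent.Lib.MP_ef3f0f_gt.I.Th
import Pool.Agent.Lib.MP_ef3f0f_gt.I.Xi
import Pool.Agent.Lib.MP_ef3f0f_gt.I.Xii
import Pool.Agent.Lib.MP_ef3f0f_gt.I.base
import Pool.Agent.Lib.MP_ef3f0f_gt.I.bd
import Pool.Agent.Lib.MP_ef3f0f_gt.I.dec
import Pool.Agent.Lib.MP_ef3f0f_gt.I.fin
import Pool.Agent.Lib.MP_ef3f0f_gt.I.gen
import Pool.Agent.Lib.MP_ef3f0f_gt.I.h
import Pool.Agent.Lib.MP_ef3f0f_gt.I.hk
import Pool.Agent.Lib.MP_ef3f0f_gt.I.lin
import Pool.Agent.Lib.MP_ef3f0f_gt.I.mean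
import Pool.Agent.Lib.MP_ef3f0f_gt.I.near
import Pool.Agent.Lib.MP_ef3f0f_gt.I.q1
import Pool.Agent.Lib.MP_ef3f0f_gt.I.st
import Pool.Agent.Lib.MP_ef3f0f_gt.I.tele
import Pool.Agent.Lib.MP_ef3f0f_gt.I.trans
import Pool.Agent.Lib.MP_ef3f0f_gt.I.word
import Pool.Agent.Lib.MP_ef3f0f_gt.III.Bal1
import Pool.Agent.Lib.MP_ef3f0f_gt.III.BalSL
import Pool.Agent.Lib.MP_ef3f0f_gt.III.Defs
import Pool.Agent.Lib.MP_ef3f0f_gt.III.Epos
import Pool.Agent.Lib.MP_ef3f0f_gt.III.Ffin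
import Pool.Agent.Lib.MP_ef3f0f_gt.III.Final
import Pool.Agent.Lib.MP_ef3f0f_gt.III.Flip
import Pool.Agent.Lib.MP_ef3f0f_gt.III.Gordan
import Pool.Agent.Lib.MP_ef3f0f_gt.III.III3
import Pool.Agent.Lib.MP_ef3f0f_gt.III.III4
import Pool.Agent.Lib.MP_ef3f0f_gt.III.IIIa
import Pool.Agent.Lib.MP_ef3f0f_gt.III.IIIb
import Pool.Agent.Lib.MP_ef3f0f_gt.III.Match
import Pool.Agent.Lib.MP_ef3f0f_gt.III.SLfin
import Pool.Agent.Lib.MP_ef3f0f_gt.III.Spec
import Pool.Agent.Lib.MP_ef3f0f_gt.III.T3m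
import Pool.Agent.Lib.MP_ef3f0f_gt.III.T3r
import Pool.Agent.Lib.MP_ef3f0f_gt.III.er
import Pool.Agent.Lib.MP_ef3f0f_gt.III.finK
import Pool.Agent.Lib.MP_ef3f0f_gt.III.hsub
import Pool.Agent.Lib.MP_ef3f0f_gt.III.ker
import Pool.Agent.Lib.MP_ef3f0f_gt.III.main
import Pool.Agent.Lib.MP_ef3f0f_gt.III.mp
import Pool.Agent.Lib.MP_ef3f0f_gt.III.pair
import Pool.Agent.Lib.MP_ef3f0f_gt.III.six
import Pool.Agent.Lib.MP_ef3f0f_gt.III.slflow
import Pool.Agent.Lib.MP_ef3f0f_gt.III.wr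
import Pool.Agent.Lib.MP_ef3f0f_gt.N.Bs
import Pool.Agent.Lib.MP_ef3f0f_gt.N.Defs
import Pool.Agent.Lib.MP_ef3f0f_gt.N.Net
import Pool.Agent.Lib.MP_ef3f0f_gt.N.SLgen
import Pool.Agent.Lib.MP_ef3f0f_gt.N.SLtop
import Pool.Agent.Lib.MP_ef3f0f_gt.N.Spec
import Pool.Agent.Lib.MP_ef3f0f_gt.N.comm
import Pool.Agent.Lib.MP_ef3f0f_gt.N.conj3
import Pool.Agent.Lib.MP_ef3f0f_gt.N.greedy
import Pool.Agent.Lib.MP_ef3f0f_gt.N.nrm
import Pool.Agent.Lib.MP_ef3f0f_gt.N.pow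
import Pool.Agent.Lib.MP_ef3f0f_gt.N.start
import Pool.Agent.Lib.MP_ef3f0f_gt.N.step
import Pool.Agent.Lib.MP_ef3f0f_gt.N.tlnr
import Pool.Agent.Lib.MP_ef3f0f_gt.Q.BI
import Pool.Agent.Lib.MP_ef3f0f_gt.Q.Defs
import Pool.Agent.Lib.MP_ef3f0f_gt.Q.Equi
import Pool.Agent.Lib.MP_ef3f0f_gt.Q.KerOk
import Pool.Agent.Lib.MP_ef3f0f_gt.Q.NetG
import Pool.Agent.Lib.MP_ef3f0f_gt.Q.Nf
import Pool.Agent.Lib.MP_ef3f0f_gt.Q.Spec
import Pool.Agent.Lib.MP_ef3f0f_gt.Q.TR
import Pool.Agent.Lib.MP_ef3f0f_gt.Q.WG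
import Pool.Agent.Lib.MP_ef3f0f_gt.Q.a
import Pool.Agent.Lib.MP_ef3f0f_gt.Q.b
import Pool.Agent.Lib.MP_ef3f0f_gt.Q.c
import Pool.Agent.Lib.MP_ef3f0f_gt.Q.cov
import Pool.Agent.Lib.MP_ef3f0f_gt.Q.d
import Pool.Agent.Lib.MP_ef3f0f_gt.Q.iter
import Pool.Agent.Lib.MP_ef3f0f_gt.Q.kap
import Pool.Agent.Lib.MP_ef3f0f_gt.Q.loc
import Pool.Agent.Lib.MP_ef3f0f_gt.Q.var
import Pool.Agent.Lib.MP_ef3f0f_gt.W.Defs
import Pool.Agent.Lib.MP_ef3f0f_gt.W.PHang
import Pool.Agent.Lib.MP_ef3f0f_gt.W.PW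
import Pool.Agent.Lib.MP_ef3f0f_gt.W.SVD
import Pool.Agent.Lib.MP_ef3f0f_gt.W.Spec
import Pool.Agent.Lib.MP_ef3f0f_gt.W.WinAll
import Pool.Agent.Lib.MP_ef3f0f_gt.W.ang
import Pool.Agent.Lib.MP_ef3f0f_gt.W.balls
import Pool.Agent.Lib.MP_ef3f0f_gt.W.big
import Pool.Agent.Lib.MP_ef3f0f_gt.W.cj
import Pool.Agent.Lib.MP_ef3f0f_gt.W.cover
import Pool.Agent.Lib.MP_ef3f0f_gt.W.gm
import Pool.Agent.Lib.MP_ef3f0f_gt.W.rc
import Pool.Agent.Lib.MP_ef3f0f_gt.W.trlow
import Pool.Agent.Lib.MP_ef3f0f_gt.W.wd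
import Pool.Agent.Lib.MP_ef3f0f_gt.W.wtop
import Pool.Agent.Lib.MP_ef3f0f_gt.Z.Dat
import Pool.Agent.Lib.MP_ef3f0f_gt.Z.Defs
import Pool.Agent.Lib.MP_ef3f0f_gt.Z.Harn
import Pool.Agent.Lib.MP_ef3f0f_gt.Z.IM
import Pool.Agent.Lib.MP_ef3f0f_gt.Z.Lo
import Pool.Agent.Lib.MP_ef3f0f_gt.Z.O
import Pool.Agent.Lib.MP_ef3f0f_gt.Z.Spec
import Pool.Agent.Lib.MP_ef3f0f_gt.Z.Up
import Pool.Agent.Lib.MP_ef3f0f_gt.Z.chi
import Pool.Agent.Lib.MP_ef3f0f_gt.Z.disc
import Pool.Agent.Lib.MP_ef3f0f_gt.Z.inst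
import Pool.Agent.Lib.MP_ef3f0f_gt.Z.mg
import Pool.Agent.Lib.MP_ef3f0f_gt.Z.nu
import Pool.Agent.Lib.MP_ef3f0f_gt.Z.nuEx
import Pool.Agent.Lib.MP_ef3f0f_gt.Z.prodinv
import Pool.Agent.Lib.MP_ef3f0f_gt.Z.unf
import Pool.Agent.Lib.MP_ef3f0f_gt.Z.unim

set_option autoImplicit false

/-!
# MP_ef3f0f_gt: assembly of all modules
-/

namespace Pool.Agent.MPEF

open MeasureTheory Topology
open scoped ENNReal Pointwise

/-! ## The net lemma -/

private theorem y_nrm : S_nrm := tnrm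
private theorem y_Bs : S_Bs := tBs y_nrm
private theorem y_SLgen : S_SLgen := tSLgen y_nrm
private theorem y_conj3 : S_conj3 := tconj3 y_nrm
private theorem y_comm : S_comm := tcomm y_nrm
private theorem y_tlnr : S_tlnr := ttlnr y_nrm
private theorem y_pow : S_pow := tPow y_nrm
private theorem y_greedy : S_greedy := tgreedy y_nrm y_Bs y_conj3 y_tlnr y_pow
private theorem y_start : S_start := tstart y_nrm y_tlnr
private theorem y_step : S_step := tstep y_nrm y_conj3 y_comm y_tlnr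
private theorem y_Net : S_Net := tNet y_start y_step y_greedy y_Bs
private theorem y_kap : S_kap := tkap y_nrm y_Bs

/-! ## Gluing, arcs, pants -/

private theorem y_AW : S_AW := tAW
private theorem y_sf : S_sf := tsf
private theorem y_StPerm : S_StPerm := tStPerm y_sf tSysMap
private theorem y_StAmal : S_StAmal := tStAmal y_sf tSysMap tSysConj (tAmal y_AW)
private theorem y_StHNN : S_StHNN := tStHNN y_sf tSysMap (tHNN tHW)
private theorem y_Glue : S_Glue := tGlue y_StPerm y_StAmal y_StHNN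
private theorem y_FD : S_FD := tFD tdiag tcyc
private theorem y_Pants : S_Pants := tPants y_sf y_AW tcyc y_FD
private theorem y_Match : S_Match := tMatch tGordan
private theorem y_Flip : S_Flip := tFlip tdiag tmp tslflow

/-! ## The windows -/

private theorem y_gm : S_gm := tgm y_nrm
private theorem y_rc : S_rc := trc y_nrm y_Bs
private theorem y_balls : S_balls := tballs y_nrm y_Bs y_SLgen
private theorem y_wtop : S_wtop := twtop y_nrm y_Bs y_rc y_balls
private theorem y_ang : S_ang := tang y_nrm y_gm tSVD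
private theorem y_trlow : S_trlow := ttrlow y_nrm y_gm y_ang
private theorem y_big : S_big := tbig y_nrm y_gm y_rc y_trlow
private theorem y_cover : S_cover := tcover y_gm
private theorem y_wd : S_wd := twd y_nrm y_balls y_cover
private theorem y_PHang : S_PHang := tPHang y_gm
private theorem y_PW : S_PW := tPW y_gm y_ang y_PHang
private theorem y_cj : S_cj := tcj tdiag y_nrm y_gm y_wtop
private theorem y_Win : S_Win := tWinAll y_balls y_wtop y_big y_cj y_wd y_PW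

/-! ## Part 0, I, II, III -/

section General

variable (P H : Type) [Group P] [Group H] [TopologicalSpace P] [TopologicalSpace H]
  [IsTopologicalGroup P] [IsTopologicalGroup H] [LocallyCompactSpace P] [LocallyCompactSpace H]
  [T2Space P] [T2Space H] [SecondCountableTopology P] [SecondCountableTopology H]
  [MeasurableSpace P] [MeasurableSpace H] [BorelSpace P] [BorelSpace H]

private theorem y_inst : S_inst P H := tinst (P := P) (H := H)
private theorem y_O : S_O P H := tO (P := P) (H := H)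
private theorem y_unf : S_unf P H := tunf (P := P) (H := H) (y_inst P H)
private theorem y_nu : S_nu P H := tnu (P := P) (H := H) (y_inst P H) (y_O P H)
private theorem y_IM : S_IM P H := tIM (P := P) (H := H) (y_inst P H) (y_unf P H)
private theorem y_mg : S_mg P H := tmg (P := P) (H := H) (y_inst P H) (y_nu P H) (y_unf P H)
private theorem y_Up : S_Up P H := tUp (P := P) (H := H) (y_inst P H) (y_nu P H) (y_mg P H)
private theorem y_Lo : S_Lo P H :=
  tLo (P := P) (H := H) (y_inst P H) (y_O P H) (y_nu P H) (y_mg P H)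
private theorem y_Harn : S_Harn P H :=
  tHarn (P := P) (H := H) (y_inst P H) (y_O P H) (y_nu P H)
private theorem y_Dat : S_Dat P H :=
  tDat (P := P) (H := H) tdisc (tchi tdisc) tunim tprodinv tnuEx

private theorem y_BI : S_BI P H := tBI (P := P) (H := H) (y_inst P H)
private theorem y_TR : S_TR P H :=
  tTR (P := P) (H := H) (y_inst P H) (y_IM P H) (y_nu P H) (y_BI P H)
private theorem y_iter : S_iter P H := titer (P := P) (H := H) (y_BI P H) (y_TR P H)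
private theorem y_loc : S_loc P H :=
  tloc (P := P) (H := H) (y_inst P H) (y_O P H) (y_nu P H) (y_Up P H)
private theorem y_a : S_a P H :=
  ta (P := P) (H := H) (y_inst P H) (y_O P H) (y_nu P H) (y_BI P H) (y_TR P H)
private theorem y_b : S_b P H :=
  tb (P := P) (H := H) (y_inst P H) (y_O P H) (y_BI P H) (y_TR P H) (y_loc P H) (y_a P H)
private theorem y_c : S_c P H :=
  tc (P := P) (H := H) (y_inst P H) (y_O P H) (y_BI P H) (y_TR P H) (y_loc P H) (y_a P H)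
private theorem y_cov : S_cov P H := tcov (P := P) (H := H) (y_nu P H) (y_Lo P H)
private theorem y_var : S_var P H :=
  tvar (P := P) (H := H) (y_inst P H) (y_unf P H) (y_BI P H)
private theorem y_Nf : S_Nf P H :=
  tNf (P := P) (H := H) (y_inst P H) (y_nu P H) (y_mg P H) (y_Up P H) (y_BI P H)
private theorem y_Equi : S_Equi P H :=
  tEqui (P := P) (H := H) (y_inst P H) (y_Up P H) (y_BI P H) (y_TR P H) (y_iter P H) (y_Nf P H)
private theorem y_KerOk : S_KerOk P H := tKerOk (P := P) (H := H) (y_inst P H)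

private theorem y_st : S_st P H := tst (P := P) (H := H) (y_inst P H)
private theorem y_near : S_near P H :=
  tnear (P := P) (H := H) (y_inst P H) (y_O P H) (y_nu P H) (y_unf P H) (y_Up P H) (y_Lo P H)
private theorem y_hk : S_hk P H := thk (P := P) (H := H) (y_Harn P H)
private theorem y_bd : S_bd P H :=
  tbd (P := P) (H := H) (y_inst P H) (y_O P H) (y_nu P H) (y_Up P H) (y_Lo P H)
private theorem y_base : S_base P H := tbase (P := P) (H := H) (y_inst P H)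
private theorem y_Xi : S_Xi P H :=
  tXi (P := P) (H := H) (y_inst P H) (y_st P H) (y_hk P H) (y_bd P H) (y_base P H)
private theorem y_Xii : S_Xii P H :=
  tXii (P := P) (H := H) (y_inst P H) (y_st P H) (y_hk P H) (y_bd P H) (y_base P H)
private theorem y_PI0 : S_PI0 P H :=
  tPI0 (P := P) (H := H) tdec (y_inst P H) (y_st P H) (y_bd P H) (y_Xi P H) (y_Xii P H)
private theorem y_PI : S_PI P H :=
  tPI (P := P) (H := H) (y_inst P H) (y_st P H) (y_near P H) (y_hk P H) (y_PI0 P H) (y_O P H)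
    (y_nu P H)
private theorem y_E1 : S_E1 P H :=
  tE1 (P := P) (H := H) tdec (y_inst P H) (y_st P H) (y_bd P H) (y_base P H)
private theorem y_fin : S_fin P H := tfin (P := P) (H := H) (y_inst P H) (y_nu P H) (y_Up P H)
private theorem y_mean : S_mean P H := tmean (P := P) (H := H) (y_inst P H)
private theorem y_Th : S_Th P H :=
  tTh (P := P) (H := H) (y_inst P H) (y_st P H) (y_near P H) (y_hk P H) (y_bd P H) (y_E1 P H)
    (y_fin P H) (y_mean P H) (y_O P H) (y_nu P H)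
private theorem y_gen : S_gen P H := tgen (P := P) (H := H) (y_inst P H) (y_O P H) (y_Lo P H)
private theorem y_word : S_word P H :=
  tword (P := P) (H := H) tdec (y_inst P H) (y_O P H) (y_nu P H) (y_st P H) (y_near P H)
    (y_Harn P H) (y_Up P H) (y_Lo P H) (y_bd P H) (y_base P H) (y_Th P H)
private theorem y_F0 : S_F0 P H :=
  tF0 (P := P) (H := H) tdec (y_inst P H) (y_O P H) (y_st P H) (y_near P H) (y_hk P H) (y_bd P H)
    (y_PI P H)
private theorem y_h : S_h P H :=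
  th (P := P) (H := H) tlin (y_inst P H) (y_O P H) (y_st P H) (y_near P H) (y_Lo P H) (y_bd P H)
    (y_gen P H) (y_F0 P H) (y_word P H) (y_nu P H)
private theorem y_trans : S_trans P H :=
  ttrans (P := P) (H := H) (y_inst P H) (y_IM P H) (y_nu P H) (y_mg P H) (y_st P H)
private theorem y_tele : S_tele P H :=
  ttele (P := P) (H := H) (y_inst P H) (y_IM P H) (y_nu P H) (y_mg P H) (y_st P H)
private theorem y_q1 : S_q1 P H := tq1 (P := P) (H := H) (y_inst P H) (y_O P H) (y_nu P H)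
private theorem y_I6 : S_I6 P H :=
  tI6 (P := P) (H := H) (y_inst P H) (y_st P H) (y_trans P H) (y_tele P H) (y_q1 P H) (y_nu P H)
private theorem y_T2II : S_T2II P H :=
  tT2II (P := P) (H := H) (y_inst P H) (y_IM P H) (y_unf P H) (y_nu P H) (y_mg P H)
private theorem y_I7 : S_I7 P H :=
  tI7 (P := P) (H := H) tdec (y_inst P H) (y_O P H) (y_st P H) (y_near P H) (y_hk P H) (y_bd P H)
    (y_fin P H) (y_mean P H) (y_T2II P H) (y_I6 P H)
private theorem y_I8 : S_I8 P H :=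
  tI8 (P := P) (H := H) (y_inst P H) (y_T2II P H) (y_I7 P H) (y_nu P H)
private theorem y_End : S_End P H :=
  tEnd (P := P) (H := H) (y_inst P H) (y_st P H) (y_bd P H) (y_base P H) (y_T2II P H) (y_h P H)
    (y_I8 P H)

private theorem y_Bal1 : S_Bal1 P H := tBal1 (P := P) (H := H) (y_inst P H) (y_nu P H)
private theorem y_six : S_six P H :=
  tsix (P := P) (H := H) (y_inst P H) (y_nu P H) (y_unf P H)
private theorem y_T3r : S_T3r P H := tT3r (P := P) (H := H) (y_inst P H)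
private theorem y_T3m : S_T3m P H := tT3m (P := P) (H := H)
private theorem y_finK : S_finK P H := tfinK (P := P) (H := H) (y_inst P H) (y_nu P H)
private theorem y_wr : S_wr P H := twr (P := P) (H := H) (y_inst P H) (y_nu P H)
private theorem y_ker : S_ker P H := tker (P := P) (H := H) (y_inst P H)
private theorem y_pair : S_pair P H :=
  tpair (P := P) (H := H) (y_wr P H) (y_ker P H) (y_six P H)
private theorem y_main : S_main P H := tmain (P := P) (H := H) (y_T3r P H) (y_finK P H)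
private theorem y_IIIa : S_IIIa P H :=
  tIIIa (P := P) (H := H) (y_T3m P H) (y_finK P H) (y_wr P H) (y_ker P H) (y_pair P H) (y_main P H)
private theorem y_IIIb : S_IIIb P H :=
  tIIIb (P := P) (H := H) (y_T3m P H) (y_finK P H) (y_wr P H) (y_ker P H) (y_pair P H) (y_main P H)
private theorem y_hsub : S_hsub P H := thsub (P := P) (H := H)
private theorem y_Epos : S_Epos P H :=
  tEpos (P := P) (H := H) (y_inst P H) (y_Lo P H) (y_finK P H) (y_wr P H) (y_ker P H)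
private theorem y_III3 : S_III3 P H :=
  tIII3 (P := P) (H := H) ter (y_IIIa P H) (y_IIIb P H) (y_hsub P H) (y_Epos P H)
private theorem y_Ffin : S_Ffin P H :=
  tFfin (P := P) (H := H) (y_inst P H) (y_finK P H) (y_ker P H)

end General

section SL

variable (H : Type) [Group H] [TopologicalSpace H] [IsTopologicalGroup H]
  [LocallyCompactSpace H] [T2Space H] [SecondCountableTopology H] [MeasurableSpace H]
  [BorelSpace H]

private theorem y_d : S_d H :=
  td (H := H) y_nrm y_Bs (y_inst SL2 H) (y_O SL2 H) (y_BI SL2 H) (y_TR SL2 H) (y_loc SL2 H)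
private theorem y_NetG : S_NetG H := tNetG (H := H) (y_O SL2 H) y_Net
private theorem y_WG : S_WG H :=
  tWG (H := H) y_nrm y_Bs (y_inst SL2 H) (y_BI SL2 H) (y_TR SL2 H) (y_loc SL2 H) (y_b SL2 H)
    (y_c SL2 H) (y_cov SL2 H) (y_var SL2 H) (y_d H) (y_NetG H)
private theorem y_BalSL : S_BalSL H := tBalSL (H := H) y_Flip (y_Bal1 SL2 H)
private theorem y_III4 : S_III4 H := tIII4 (H := H) tcyc y_Pants y_Match (y_Ffin SL2 H)

end SL

private theorem y_SLfin (hThm : S_Thm1) : S_SLfin :=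
  tSLfin (fun H => y_Dat SL2 H) y_Win tarcOk y_Glue tSurfEnd hThm (fun H => y_BalSL H) y_kap
    (fun H => y_WG H) (fun H => y_KerOk SL2 H) (fun H => y_Equi SL2 H) (fun H => y_III3 SL2 H)
    (fun H => y_III4 H)

/-- **Theorem 1** (coercivity). -/
theorem tThm1 : S_Thm1 := fun P H _ _ _ _ _ _ _ _ _ _ _ _ _ _ _ _ D G => y_End P H D G

/-- **Theorem S.** -/
theorem tAll : S_Final := tFinal (y_SLfin tThm1) tpre tpost

end Pool.Agent.MPEF
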